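import Mathlib
import Pool.Agent.Run7.h489.TM.Hts

set_option autoImplicit false
set_option linter.unusedSectionVars false

/-!
Heights and the places outside of `S`.
-/

namespace Pool.Agent.Run7.h489.VJ

open Height NumberField IsDedekindDomain
open Pool.Agent.W180.OP (Pl av wt fv nrm wt_nonneg le_nrm exists_nrm nrm_pos fv_support_finite)
open Pool.Agent.R404.TC (Sp)
open Pool.Agent.Run7.h489.LV (IsU IsI)
open Pool.Agent.Run7.h489.TM

variable {k : Type} [Field k] [NumberField k] {S : Finset (HeightOneSpectrum (𝓞 k))}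

theorem one_le_nrm {F : Type} [Field F] (f : AbsoluteValue F ℝ) {a : ℕ} {P : Fin a → F} {i : Fin a}
    (hP : P i = 1) : 1 ≤ nrm f P := by
  have h := le_nrm f P i
  rwa [hP, map_one] at h

/-- the contribution of the places outside of `S` -/
noncomputable def out (S : Finset (HeightOneSpectrum (𝓞 k))) {a : ℕ} (P : Fin a → k) : ℝ :=
  ∑ᶠ (v : HeightOneSpectrum (𝓞 k)) (_ : v ∉ S), Real.log (nrm (fv v) P)

theorem height_out {a : ℕ} {P : Fin a → k} {i : Fin a} (hP : P i = 1) :
    logHeight P = ∑ v ∈ Sp S, wt v * Real.log (nrm (av v) P) + out S P :=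
  sum_nrm i (by rw [hP]; exact IsU.one)

theorem out_supp {a : ℕ} {P : Fin a → k} {i : Fin a} (hP : P i = 1) :
    (Function.support fun v : HeightOneSpectrum (𝓞 k) =>
      ∑ᶠ (_ : v ∉ S), Real.log (nrm (fv v) P)).Finite := by
  classical
  have h1 : (⋃ l ∈ {l : Fin a | P l ≠ 0}, {v : HeightOneSpectrum (𝓞 k) | fv v (P l) ≠ 1}).Finite :=
    Set.Finite.biUnion (Set.toFinite _) fun l hl => fv_support_finite hl
  refine h1.subset fun v hv => ?_
  by_contra hcon
  apply hv
  have h2 : ∀ l, fv v (P l) ≤ 1 := by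
    intro l
    by_cases hl : P l = 0
    · rw [hl, map_zero]
      exact zero_le_one
    · by_contra h3
      apply hcon
      refine Set.mem_iUnion₂.2 ⟨l, hl, ?_⟩
      intro h4
      exact h3 h4.le
  have h3 : nrm (fv v) P = 1 := by
    apply le_antisymm _ (one_le_nrm (fv v) hP)
    have : Nonempty (Fin a) := ⟨i⟩
    exact ciSup_le h2
  show ∑ᶠ (_ : v ∉ S), Real.log (nrm (fv v) P) = 0
  rw [h3, Real.log_one]
  exact finsum_zero

theorem out_nonneg {a : ℕ} {P : Fin a → k} {i : Fin a} (hP : P i = 1) : 0 ≤ out S P :=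
  finsum_nonneg fun v => finsum_nonneg fun _ => Real.log_nonneg (one_le_nrm (fv v) hP)

theorem out_mono {a b : ℕ} {P : Fin a → k} {Q : Fin b → k} {i : Fin a} {j : Fin b} (hP : P i = 1)
    (hQ : Q j = 1) (h : ∀ f : AbsoluteValue k ℝ, nrm f Q ≤ nrm f P) : out S Q ≤ out S P := by
  classical
  refine finsum_le_finsum' (out_supp hQ) (out_supp hP) fun v => ?_
  by_cases hv : v ∉ S
  · rw [finsum_eq_if, finsum_eq_if, if_pos hv, if_pos hv]
    exact Real.log_le_log (lt_of_lt_of_le one_pos (one_le_nrm (fv v) hQ)) (h (fv v))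
  · rw [finsum_eq_if, finsum_eq_if, if_neg hv, if_neg hv]

theorem height_le {a b : ℕ} {P : Fin a → k} {Q : Fin b → k} {i : Fin a} {j : Fin b} (hP : P i = 1)
    (hQ : Q j = 1) (h : ∀ f : AbsoluteValue k ℝ, nrm f Q ≤ nrm f P) :
    logHeight Q ≤ logHeight P := by
  rw [height_out (S := ∅) hP, height_out (S := ∅) hQ]
  refine add_le_add (Finset.sum_le_sum fun v _ => ?_) (out_mono hP hQ h)
  exact mul_le_mul_of_nonneg_left (Real.log_le_log
    (lt_of_lt_of_le one_pos (one_le_nrm (av v) hQ)) (h (av v))) (wt_nonneg v)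

/-- the point `(1 : u : s)` -/
def pt {F : Type} [Field F] {m : ℕ} (u : Fin m → F) (s : F) : Fin (m + 2) → F :=
  Fin.cons 1 (Fin.snoc u s)

section

variable {F : Type} [Field F] {m : ℕ}

theorem pt_zero (u : Fin m → F) (s : F) : pt u s 0 = 1 := rfl

theorem pt_u (u : Fin m → F) (s : F) (i : Fin m) : pt u s i.castSucc.succ = u i := by
  unfold pt
  rw [Fin.cons_succ, Fin.snoc_castSucc]

theorem pt_s (u : Fin m → F) (s : F) : pt u s (Fin.last m).succ = s := by
  unfold pt
  rw [Fin.cons_succ, Fin.snoc_last]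

theorem pt_cases {u : Fin m → F} {s : F} {p : F → Prop} (h0 : p 1) (hu : ∀ i, p (u i)) (hs : p s)
    (j : Fin (m + 2)) : p (pt u s j) := by
  refine Fin.cases ?_ (fun j => ?_) j
  · exact h0
  · refine Fin.lastCases ?_ (fun i => ?_) j
    · rw [pt_s]
      exact hs
    · rw [pt_u]
      exact hu i

theorem nrm_pt_le (f : AbsoluteValue F ℝ) {u : Fin m → F} {s : F} {M : ℝ} (h0 : 1 ≤ M)
    (hu : ∀ i, f (u i) ≤ M) (hs : f s ≤ M) : nrm f (pt u s) ≤ M := by
  refine ciSup_le fun j => ?_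
  exact pt_cases (p := fun x => f x ≤ M) (by rw [map_one]; exact h0) hu hs j

end

variable {m : ℕ}

theorem nrm_s_le (f : AbsoluteValue k ℝ) (u : Fin m → k) (s : k) :
    nrm f (![s, 1] : Fin 2 → k) ≤ nrm f (pt u s) := by
  rw [nrm_pair]
  refine max_le ?_ (one_le_nrm f (pt_zero u s))
  have := le_nrm f (pt u s) (Fin.last m).succ
  rwa [pt_s] at this

theorem nrm_u_le (f : AbsoluteValue k ℝ) (u : Fin m → k) (s : k) (i : Fin m) :
    nrm f (![u i, 1] : Fin 2 → k) ≤ nrm f (pt u s) := by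
  rw [nrm_pair]
  refine max_le ?_ (one_le_nrm f (pt_zero u s))
  have := le_nrm f (pt u s) i.castSucc.succ
  rwa [pt_u] at this

theorem height_s_le (u : Fin m → k) (s : k) : logHeight₁ s ≤ logHeight (pt u s) := by
  rw [logHeight₁_eq_logHeight]
  exact height_le (pt_zero u s) (j := 1) rfl fun f => nrm_s_le f u s

theorem height_u_le (u : Fin m → k) (s : k) (i : Fin m) :
    logHeight₁ (u i) ≤ logHeight (pt u s) := by
  rw [logHeight₁_eq_logHeight]
  exact height_le (pt_zero u s) (j := 1) rfl fun f => nrm_u_le f u s i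

/-- the comparison of the fibre coordinate and the point -/
theorem out_s_le (u : Fin m → k) (s : k) :
    logHeight₁ s - ∑ v ∈ Sp S, wt v * Real.log (max 1 (av v s)) ≤
      logHeight (pt u s) - ∑ v ∈ Sp S, wt v * Real.log (nrm (av v) (pt u s)) := by
  rw [logHeight₁_eq_logHeight, height_out (S := S) (P := ![s, 1]) (i := 1) rfl,
    height_out (S := S) (pt_zero u s)]
  have h1 := out_mono (S := S) (pt_zero u s) (Q := ![s, 1]) (j := 1) rfl fun f => nrm_s_le f u s
  have h2 : ∑ v ∈ Sp S, wt v * Real.log (nrm (av v) (![s, 1] : Fin 2 → k)) =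
      ∑ v ∈ Sp S, wt v * Real.log (max 1 (av v s)) :=
    Finset.sum_congr rfl fun v _ => by rw [nrm_pair, max_comm]
  linarith

theorem out_pt_nonneg (u : Fin m → k) (s : k) :
    0 ≤ logHeight (pt u s) - ∑ v ∈ Sp S, wt v * Real.log (nrm (av v) (pt u s)) := by
  rw [height_out (S := S) (pt_zero u s)]
  have := out_nonneg (S := S) (pt_zero u s)
  linarith

end Pool.Agent.Run7.h489.VJ
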