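import Mathlib
import Pool.Agent.Run7.h489.TM.Proj
import Pool.Agent.Run7.h489.VJ.Out

set_option autoImplicit false
set_option linter.unusedSectionVars false

/-!
The charts of projective space.
-/

namespace Pool.Agent.Run7.h489.VJ

open Polynomial
open Pool.Agent.W180.OP (nrm le_nrm)
open Pool.Agent.Run7.h489.TM

section

variable {K : Type} [Field K] {m : ℕ}

/-- the exponent of the dominating coordinate -/
def kap (o : Option (Fin m)) : Fin m → ℤ := Option.elim o 0 fun i => Pi.single i 1

/-- the restriction of the homogenisation to a coordinate line through `P_y` -/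
noncomputable def lin (f : MvPolynomial (Option (Fin m)) K) (n : ℕ) (o : Option (Fin m)) : K[X] :=
  Option.elim o (line0 f n) fun i => line f n i

theorem gpol_lin {f : MvPolynomial (Option (Fin m)) K} {n : ℕ} (hf : f.totalDegree ≤ n)
    (o : Option (Fin m)) : gpol (toF f) (kap o) (n • kap o) = lin f n o := by
  rcases o with _ | i
  · show gpol (toF f) 0 (n • (0 : Fin m → ℤ)) = line0 f n
    rw [smul_zero, gpol_line0 hf]
  · exact gpol_line hf i

theorem dt_zero (θ : Fin m → ℝ) : dt θ 0 = 0 := by simp [dt]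

theorem dt_kap (θ : Fin m → ℝ) (i : Fin m) : dt θ (kap (some i)) = θ i := dt_single θ i

/-- the coordinates `(1 : u_1 : ... : u_m)` -/
def co (u : Fin m → K) (o : Option (Fin m)) : K := Option.elim o 1 u

theorem mono_kap (u : Fin m → K) (o : Option (Fin m)) : mono u (kap o) = co u o := by
  rcases o with _ | i
  · exact mono_zero u
  · show mono u (kap (some i)) = u i
    unfold mono kap
    rw [Finset.prod_eq_single i]
    · show u i ^ (Pi.single i (1 : ℤ) : Fin m → ℤ) i = u i
      rw [Pi.single_eq_same, zpow_one]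
    · intro j _ hj
      show u j ^ (Pi.single i (1 : ℤ) : Fin m → ℤ) j = 1
      rw [Pi.single_eq_of_ne hj, zpow_zero]
    · intro h
      exact absurd (Finset.mem_univ _) h

/-- one of the coordinates `1, u_1, ..., u_m` dominates the other ones -/
def Near (v : AbsoluteValue K ℝ) (u : Fin m → K) (t : ℝ) : Prop :=
  ∃ o, ∀ o' ≠ o, v (co u o') ≤ Real.exp (-t) * v (co u o)

theorem chart_none {f : MvPolynomial (Option (Fin m)) K} {n : ℕ}
    (θ : Fin m → ℝ) {c : ℝ} (hc : 0 < c) (hθ : ∀ i, θ i ≤ -c) :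
    0 ≤ dt θ (kap none) ∧ (∀ i, θ i ≤ dt θ (kap none)) ∧
      ∀ e ∈ (toF f).support, e.1 + e.2 • kap none ≠ n • kap none →
        dt θ (e.1 + e.2 • kap none - n • kap none) ≤ -c := by
  have hexp : ∀ d : Option (Fin m) →₀ ℕ, dt θ (expo d).1 = ∑ i, (d (some i) : ℝ) * θ i := by
    intro d
    unfold dt expo
    refine Finset.sum_congr rfl fun i _ => ?_
    push_cast
    rfl
  refine ⟨(dt_zero θ).ge, fun i => ?_, ?_⟩
  · show θ i ≤ dt θ 0
    rw [dt_zero]
    have := hθ i
    linarith
  · intro e he hne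
    obtain ⟨d, hd, rfl⟩ := exists_expo he
    have e1 : kap (none : Option (Fin m)) = 0 := rfl
    rw [e1, smul_zero, smul_zero, add_zero] at hne ⊢
    rw [sub_zero, hexp]
    obtain ⟨i, hi⟩ := Function.ne_iff.1 hne
    have hi' : d (some i) ≠ 0 := fun h => hi (by
      show ((d (some i) : ℕ) : ℤ) = 0
      rw [h]; rfl)
    have h2 : ∀ j, (d (some j) : ℝ) * θ j ≤ 0 := fun j =>
      mul_nonpos_of_nonneg_of_nonpos (Nat.cast_nonneg _) (by
        have := hθ j
        linarith)
    rw [← Finset.add_sum_erase _ _ (Finset.mem_univ i)]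
    have h3 : ∑ j ∈ Finset.univ.erase i, (d (some j) : ℝ) * θ j ≤ 0 :=
      Finset.sum_nonpos fun j _ => h2 j
    have h4 : (1 : ℝ) ≤ d (some i) := by exact_mod_cast Nat.one_le_iff_ne_zero.2 hi'
    have h5 := hθ i
    nlinarith

theorem chart_some {f : MvPolynomial (Option (Fin m)) K} {n : ℕ} (hf : f.totalDegree ≤ n)
    (θ : Fin m → ℝ) {c : ℝ} (hc : 0 < c) (i : Fin m) (hic : c ≤ θ i)
    (hj : ∀ j, j ≠ i → θ j - θ i ≤ -c) :
    0 ≤ dt θ (kap (some i)) ∧ (∀ j, θ j ≤ dt θ (kap (some i))) ∧
      ∀ e ∈ (toF f).support, e.1 + e.2 • kap (some i) ≠ n • kap (some i) →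
        dt θ (e.1 + e.2 • kap (some i) - n • kap (some i)) ≤ -c := by
  have hexp : ∀ d : Option (Fin m) →₀ ℕ, dt θ (expo d).1 = ∑ i, (d (some i) : ℝ) * θ i := by
    intro d
    unfold dt expo
    refine Finset.sum_congr rfl fun i _ => ?_
    push_cast
    rfl
  have hi : ∀ j, θ j ≤ θ i := fun j => by
    by_cases h : j = i
    · rw [h]
    · have := hj j h
      linarith
  refine ⟨?_, fun j => ?_, ?_⟩
  · rw [dt_kap]
    linarith
  · rw [dt_kap]
    exact hi j
  · intro e he hne'
    obtain ⟨d, hd, rfl⟩ := exists_expo he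
    have h2 := deg_le hf hd
    rw [dt_sub, dt_add, dt_nsmul, dt_nsmul, dt_kap, hexp]
    have h3 : ((expo d).2 : ℝ) = d none := rfl
    rw [h3]
    have h5 : ((d none : ℝ) + ∑ j, (d (some j) : ℝ)) ≤ n := by exact_mod_cast h2
    have h6 : ∑ j, (d (some j) : ℝ) * θ j + d none * θ i - n * θ i =
        ∑ j, (d (some j) : ℝ) * (θ j - θ i) + (d none + ∑ j, (d (some j) : ℝ) - n) * θ i := by
      simp only [mul_sub]
      rw [Finset.sum_sub_distrib, ← Finset.sum_mul]
      ring
    rw [h6]
    have h4 : ∀ j, (d (some j) : ℝ) * (θ j - θ i) ≤ 0 := fun j =>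
      mul_nonpos_of_nonneg_of_nonpos (Nat.cast_nonneg _) (sub_nonpos.2 (hi j))
    have hS : ∑ j, (d (some j) : ℝ) * (θ j - θ i) ≤ 0 := Finset.sum_nonpos fun j _ => h4 j
    rcases lt_or_eq_of_le h2 with h7 | h7
    · have h8 : ((d none : ℝ) + ∑ j, (d (some j) : ℝ)) - n ≤ -1 := by
        have : d none + ∑ j, d (some j) + 1 ≤ n := h7
        have h9 : ((d none : ℝ) + ∑ j, (d (some j) : ℝ)) + 1 ≤ n := by exact_mod_cast this
        linarith
      nlinarith
    · obtain ⟨j, hj', hdj⟩ : ∃ j, j ≠ i ∧ d (some j) ≠ 0 := by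
        by_contra hcon
        push Not at hcon
        apply hne'
        have h9 : ∑ j, d (some j) = d (some i) := Finset.sum_eq_single i
          (fun j _ hj => hcon j hj) (fun h => absurd (Finset.mem_univ _) h)
        funext j
        show ((d (some j) : ℕ) : ℤ) + (d none • (Pi.single i 1 : Fin m → ℤ)) j =
          (n • (Pi.single i 1 : Fin m → ℤ)) j
        rw [Pi.smul_apply, Pi.smul_apply]
        by_cases hj : j = i
        · subst hj
          rw [Pi.single_eq_same]
          simp only [nsmul_eq_mul, mul_one]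
          omega
        · rw [Pi.single_eq_of_ne hj, hcon j hj]
          simp
      have h8 : ((d none : ℝ) + ∑ j, (d (some j) : ℝ)) - n = 0 := by
        have : ((d none : ℝ) + ∑ j, (d (some j) : ℝ)) = n := by exact_mod_cast h7
        linarith
      rw [h8, zero_mul, add_zero]
      rw [← Finset.add_sum_erase _ _ (Finset.mem_univ j)]
      have h9 : ∑ j ∈ Finset.univ.erase j, (d (some j) : ℝ) * (θ j - θ i) ≤ 0 :=
        Finset.sum_nonpos fun j _ => h4 j
      have h10 : (1 : ℝ) ≤ d (some j) := by exact_mod_cast Nat.one_le_iff_ne_zero.2 hdj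
      have h11 := hj j hj'
      nlinarith

/-- the chart at a place where one of the coordinates dominates -/
theorem chart_near {f : MvPolynomial (Option (Fin m)) K} {n : ℕ} (hf : f.totalDegree ≤ n)
    (v : AbsoluteValue K ℝ) {u : Fin m → K} (hu : ∀ i, u i ≠ 0) {c : ℝ} (hc : 0 < c)
    (h : Near v u c) (θ : Fin m → ℝ) (hθ : ∀ i, θ i = Real.log (v (u i))) :
    ∃ o : Option (Fin m), 0 ≤ dt θ (kap o) ∧ (∀ i, θ i ≤ dt θ (kap o)) ∧
      ∀ e ∈ (toF f).support, e.1 + e.2 • kap o ≠ n • kap o →
        dt θ (e.1 + e.2 • kap o - n • kap o) ≤ -c := by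
  obtain ⟨o, ho⟩ := h
  have hlog : ∀ x y : K, x ≠ 0 → y ≠ 0 → v x ≤ Real.exp (-c) * v y →
      Real.log (v x) ≤ -c + Real.log (v y) := by
    intro x y hx hy h1
    have h2 := Real.log_le_log (v.pos hx) h1
    rwa [Real.log_mul (Real.exp_pos _).ne' (v.pos hy).ne', Real.log_exp] at h2
  refine ⟨o, ?_⟩
  rcases o with _ | i
  · refine chart_none θ hc fun i => ?_
    have h1 := hlog (u i) 1 (hu i) one_ne_zero (ho (some i) (by simp))
    rw [map_one, Real.log_one, add_zero] at h1
    rw [hθ]
    exact h1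
  · refine chart_some hf θ hc i ?_ fun j hj => ?_
    · have h1 := hlog 1 (u i) one_ne_zero (hu i) (ho none (by simp))
      rw [map_one, Real.log_one] at h1
      rw [hθ]
      linarith
    · have h1 := hlog (u j) (u i) (hu j) (hu i) (ho (some j) (by simpa using hj))
      rw [hθ, hθ]
      linarith

/-- the norm of the point in a chart -/
theorem nrm_chart (f : AbsoluteValue K ℝ) {u : Fin m → K} (hu : ∀ i, u i ≠ 0) (s : K)
    (o : Option (Fin m)) (h0 : 1 ≤ f (mono u (kap o))) (h1 : ∀ i, f (u i) ≤ f (mono u (kap o))) :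
    Real.log (nrm f (pt u s)) = Real.log (f (mono u (kap o))) +
      Real.log (max 1 (f (mono u (-kap o) * s))) := by
  have hpos : 0 < f (mono u (kap o)) := f.pos (mono_ne hu _)
  rw [← Real.log_mul hpos.ne' (lt_of_lt_of_le one_pos (le_max_left _ _)).ne']
  congr 1
  have h2 : f (mono u (kap o)) * f (mono u (-kap o) * s) = f s := by
    rw [← map_mul, ← mul_assoc, ← mono_add hu, add_neg_cancel, mono_zero, one_mul]
  rw [mul_max_of_nonneg _ _ hpos.le, mul_one, h2]
  apply le_antisymm
  · exact nrm_pt_le f (h0.trans (le_max_left _ _)) (fun i => (h1 i).trans (le_max_left _ _))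
      (le_max_right _ _)
  · refine max_le ?_ ?_
    · rcases o with _ | i
      · have e1 : mono u (kap (none : Option (Fin m))) = 1 := mono_zero u
        rw [e1, map_one]
        exact one_le_nrm f (pt_zero u s)
      · have e1 : mono u (kap (some i)) = u i := mono_kap u (some i)
        rw [e1]
        have := le_nrm f (pt u s) i.castSucc.succ
        rwa [pt_u] at this
    · have := le_nrm f (pt u s) (Fin.last m).succ
      rwa [pt_s] at this

end

end Pool.Agent.Run7.h489.VJ
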