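import Mathlib
import Pool.Agent.Run7.h489.TM.Lau

set_option autoImplicit false
set_option linter.unusedSectionVars false

/-!
A sharper form of the local inequality.
-/

namespace Pool.Agent.Run7.h489.VJ

open Polynomial
open Pool.Agent.Run7.h489.TM

section

variable {K : Type} [Field K]

/-- the dichotomy -/
theorem dich2 (f : AbsoluteValue K ℝ) {g : K[X]} {n : ℕ} (hn : 1 ≤ n) (hg : g.natDegree = n)
    (hs : g.Splits) (hsep : ∀ α, g.eval α = 0 → g.derivative.eval α ≠ 0) {M : ℝ} (hM : 0 ≤ M) :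
    ∃ ρ₀ : ℝ, 0 < ρ₀ ∧ ρ₀ ≤ 1 ∧ ∀ L : ℕ, ∃ C : ℝ, 1 ≤ C ∧ ∀ (p : K[X]) (ρ : ℝ), 0 ≤ ρ → ρ ≤ ρ₀ →
      p.natDegree ≤ n → (∀ j, f (p.coeff j - g.coeff j) ≤ M * ρ) → ∀ x : K,
      (∃ α ∈ g.roots, f x ≤ C ∧ f (x - newt p (g.derivative.eval α) α L) ≤
        C * (f (p.eval x) + ρ ^ (L + 1))) ∨ max 1 (f x) ^ n ≤ C * f (p.eval x) := by
  classical
  have hg0 : g ≠ 0 := by
    rintro rfl
    rw [natDegree_zero] at hg
    omega
  have hch : ∀ α : g.roots.toFinset, ∃ r : ℝ, 0 < r ∧ r ≤ 1 ∧ ∀ L : ℕ,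
      ∃ C : ℝ, 0 ≤ C ∧ ∀ (p : K[X]) (ρ : ℝ), 0 ≤ ρ → ρ ≤ 1 → p.natDegree ≤ n →
      (∀ j, f (p.coeff j - g.coeff j) ≤ M * ρ) → ∀ x : K, f (x - α.1) ≤ r →
        f (x - newt p (g.derivative.eval α.1) α.1 L) ≤ C * (f (p.eval x) + ρ ^ (L + 1)) := by
    intro α
    have h0 : g.eval α.1 = 0 := (mem_roots hg0).1 (Multiset.mem_toFinset.1 α.2)
    exact near1 f hn hg.le h0 (hsep _ h0) hM
  choose r hr0 hr1 hr using hch
  obtain ⟨r', hr'0, hr'⟩ : ∃ r' : ℝ, 0 < r' ∧ ∀ α, r' ≤ r α := by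
    rcases isEmpty_or_nonempty (g.roots.toFinset : Set K) with h | h
    · exact ⟨1, one_pos, fun α => (h.false α).elim⟩
    · obtain ⟨α0, hα0⟩ := Finite.exists_min r
      exact ⟨r α0, hr0 _, hα0⟩
  obtain ⟨ρ₀, c, hρ₀, hρ₁, hc, hfar⟩ := far2 f hg hg0 hs hM hr'0
  refine ⟨ρ₀, hρ₀, hρ₁, fun L => ?_⟩
  choose C hC0 hC using fun α => hr α L
  refine ⟨1 + 1 / c + ∑ α, C α + ∑ α : g.roots.toFinset, f α.1, ?_, ?_⟩
  · have h1 : 0 ≤ ∑ α, C α := Finset.sum_nonneg fun α _ => hC0 α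
    have h2 : 0 ≤ 1 / c := by positivity
    have h3 : 0 ≤ ∑ α : g.roots.toFinset, f α.1 := Finset.sum_nonneg fun α _ => f.nonneg _
    linarith
  intro p ρ hρ0 hρ hp hpg x
  have hS : 0 ≤ ∑ α, C α := Finset.sum_nonneg fun α _ => hC0 α
  have hS2 : 0 ≤ ∑ α : g.roots.toFinset, f α.1 := Finset.sum_nonneg fun α _ => f.nonneg _
  have hc2 : 0 ≤ 1 / c := by positivity
  by_cases h : ∀ α ∈ g.roots, r' < f (x - α)
  · right
    have h1 := hfar p ρ hρ0 hρ hp hpg x h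
    have h2 : max 1 (f x) ^ n ≤ 1 / c * f (p.eval x) := by
      rw [one_div, ← div_eq_inv_mul, le_div_iff₀ hc]
      linarith
    refine h2.trans (mul_le_mul_of_nonneg_right (by linarith) (f.nonneg _))
  · left
    push Not at h
    obtain ⟨α, hα, hx⟩ := h
    have hα' : α ∈ g.roots.toFinset := Multiset.mem_toFinset.2 hα
    refine ⟨α, hα, ?_, ?_⟩
    · have h1 : f x ≤ f (x - α) + f α := by
        have := f.add_le (x - α) α
        rwa [sub_add_cancel] at this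
      have h2 : f (x - α) ≤ 1 := hx.trans ((hr' ⟨α, hα'⟩).trans (hr1 _))
      have h3 := Finset.single_le_sum (f := fun α : g.roots.toFinset => f α.1)
        (fun α _ => f.nonneg _) (Finset.mem_univ ⟨α, hα'⟩)
      simp only at h3
      linarith
    · have h1 := hC ⟨α, hα'⟩ p ρ hρ0 (hρ.trans hρ₁) hp hpg x (hx.trans (hr' ⟨α, hα'⟩))
      refine h1.trans (mul_le_mul_of_nonneg_right ?_ (by
        have := f.nonneg (p.eval x)
        positivity))
      have h2 := Finset.single_le_sum (f := C) (fun α _ => hC0 α) (Finset.mem_univ ⟨α, hα'⟩)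
      linarith

end

section

variable {K : Type} [Field K] {m : ℕ}

/-- the local inequality -/
theorem local2 (f : AbsoluteValue K ℝ) {F : ((Fin m → ℤ) × ℕ) →₀ K} {κ μ : Fin m → ℤ} {n : ℕ}
    (hn : 1 ≤ n) (hF : ∀ e ∈ F.support, e.2 ≤ n) (hg : (gpol F κ μ).natDegree = n)
    (hs : (gpol F κ μ).Splits)
    (hsep : ∀ α, (gpol F κ μ).eval α = 0 → (gpol F κ μ).derivative.eval α ≠ 0) :
    ∃ ρ₀ : ℝ, 0 < ρ₀ ∧ ρ₀ ≤ 1 ∧ ∀ L : ℕ, ∃ C : ℝ, ∀ Bs : Finset ((Fin m → ℤ) →₀ K),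
      (0 ∈ Bs ∧ ∀ α ∈ (gpol F κ μ).roots, ∃ B ∈ Bs, ∀ u : Fin m → K, (∀ i, u i ≠ 0) →
        ev B u = mono u κ * newt (pol F κ μ u) ((gpol F κ μ).derivative.eval α) α L) →
      ∀ (u : Fin m → K) (s : K) (ρ : ℝ), (∀ i, u i ≠ 0) → 0 ≤ ρ → ρ ≤ ρ₀ →
      (∀ e ∈ F.support, e.1 + e.2 • κ ≠ μ → f (mono u (e.1 + e.2 • κ - μ)) ≤ ρ) →
      val F u s ≠ 0 → ρ ^ (L + 1) ≤ f (mono u (-μ) * val F u s) →
      ∃ B ∈ Bs, s - ev B u ≠ 0 → Real.log (f (s - ev B u)) +
        ((n : ℝ) - 1) * Real.log (max 1 (f (mono u (-κ) * s))) ≤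
        C + Real.log (f (mono u (κ - μ))) + Real.log (f (val F u s)) := by
  obtain ⟨ρ₀, h0, h1, h⟩ := dich2 f hn hg hs hsep (M := ∑ e ∈ F.support, f (F e))
    (Finset.sum_nonneg fun e _ => f.nonneg _)
  refine ⟨ρ₀, h0, h1, fun L => ?_⟩
  obtain ⟨C, hC1, hC⟩ := h L
  have hn' : (0 : ℝ) ≤ (n : ℝ) - 1 := by
    have : (1 : ℝ) ≤ n := by exact_mod_cast hn
    linarith
  have hlC : 0 ≤ Real.log C := Real.log_nonneg hC1
  refine ⟨Real.log (2 * C) + ((n : ℝ) - 1) * Real.log C, ?_⟩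
  rintro Bs ⟨hBs0, hBs⟩ u s ρ hu hρ0 hρ hface hval hL
  set x := mono u (-κ) * s with hx
  have hsx : mono u κ * x = s := by
    rw [hx, ← mul_assoc, ← mono_add hu, add_neg_cancel, mono_zero, one_mul]
  have hev : (pol F κ μ u).eval x = mono u (-μ) * val F u s := by
    rw [eval_pol F κ μ hu, hsx]
  have hμ : 0 < f (mono u (-μ)) := f.pos (mono_ne hu _)
  have hκ : 0 < f (mono u κ) := f.pos (mono_ne hu _)
  have hv : 0 < f (val F u s) := f.pos hval
  have h3 : f (mono u (κ - μ)) = f (mono u κ) * f (mono u (-μ)) := by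
    rw [sub_eq_add_neg, mono_add hu, map_mul]
  have hmx : (1 : ℝ) ≤ max 1 (f x) := le_max_left _ _
  have hmx0 : (0 : ℝ) < max 1 (f x) := by linarith
  rcases hC (pol F κ μ u) ρ hρ0 hρ (natDegree_pol hF κ μ u)
    (coeff_pol_sub f F κ μ u hρ0 hface) x with ⟨α, hα, hxC, h2⟩ | h2
  · obtain ⟨B, hB, hBu⟩ := hBs α hα
    refine ⟨B, hB, fun hne => ?_⟩
    have hlog : Real.log (max 1 (f x)) ≤ Real.log C :=
      Real.log_le_log hmx0 (max_le hC1 hxC)
    have hfin : Real.log (f (s - ev B u)) ≤ Real.log (2 * C) + Real.log (f (mono u (κ - μ))) +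
        Real.log (f (val F u s)) := by
      rw [h3, ← Real.log_mul (by positivity) (by positivity),
        ← Real.log_mul (by positivity) (by positivity)]
      refine Real.log_le_log (f.pos hne) ?_
      rw [hBu u hu]
      have h5 : s - mono u κ * newt (pol F κ μ u) ((gpol F κ μ).derivative.eval α) α L =
          mono u κ * (x - newt (pol F κ μ u) ((gpol F κ μ).derivative.eval α) α L) := by
        rw [mul_sub, hsx]
      rw [h5, map_mul]
      rw [hev] at h2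
      have h4 : f (x - newt (pol F κ μ u) ((gpol F κ μ).derivative.eval α) α L) ≤
          2 * C * f (mono u (-μ) * val F u s) := by
        have h6 := mul_le_mul_of_nonneg_left hL (by linarith : (0 : ℝ) ≤ C)
        linarith
      rw [map_mul] at h4
      calc f (mono u κ) * f (x - newt (pol F κ μ u) ((gpol F κ μ).derivative.eval α) α L) ≤
            f (mono u κ) * (2 * C * (f (mono u (-μ)) * f (val F u s))) :=
          mul_le_mul_of_nonneg_left h4 hκ.le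
        _ = _ := by ring
    have h6 := mul_le_mul_of_nonneg_left hlog hn'
    linarith
  · refine ⟨0, hBs0, fun hne => ?_⟩
    rw [ev_zero, sub_zero] at hne ⊢
    rw [hev, map_mul f (mono u (-μ))] at h2
    have h4 : f s = f (mono u κ) * f x := by rw [← map_mul, hsx]
    have hx0 : x ≠ 0 := fun h => hne (by rw [← hsx, h, mul_zero])
    have hfx : 0 < f x := f.pos hx0
    have h5 : Real.log (f s) = Real.log (f (mono u κ)) + Real.log (f x) := by
      rw [h4, Real.log_mul hκ.ne' hfx.ne']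
    have h6 : Real.log (f x) ≤ Real.log (max 1 (f x)) := Real.log_le_log hfx (le_max_right _ _)
    have h7 : n * Real.log (max 1 (f x)) ≤
        Real.log C + (Real.log (f (mono u (-μ))) + Real.log (f (val F u s))) := by
      rw [← Real.log_pow, ← Real.log_mul hμ.ne' hv.ne', ← Real.log_mul (by linarith) (by positivity)]
      exact Real.log_le_log (by positivity) h2
    have h8 : Real.log (f (mono u (κ - μ))) = Real.log (f (mono u κ)) + Real.log (f (mono u (-μ))) := by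
      rw [h3, Real.log_mul hκ.ne' hμ.ne']
    have h9 : Real.log C ≤ Real.log (2 * C) := Real.log_le_log (by linarith) (by linarith)
    have h10 : 0 ≤ ((n : ℝ) - 1) * Real.log C := mul_nonneg hn' hlC
    rw [h5, h8]
    linarith

end

end Pool.Agent.Run7.h489.VJ
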