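import Mathlib
import Pool.Agent.N63.MT.Main
import Pool.Agent.Run7.h489.TM.Gen
import Pool.Agent.Run7.h489.VJ.Loc3
import Pool.Agent.Run7.h489.VJ.Chart

set_option autoImplicit false
set_option linter.unusedSectionVars false

/-!
Vojta's inequality.
-/

namespace Pool.Agent.Run7.h489.VJ

open Height NumberField IsDedekindDomain
open Pool.Agent.W180.OP (Pl av wt fv nrm wt_nonneg le_nrm exists_nrm nrm_pos)
open Pool.Agent.R404.TC (Sp)
open Pool.Agent.R405 (Good exists_good)
open Pool.Agent.Run7.h489.TM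
open Pool.Agent.Run7.h489.LV (wt_pos)
open Pool.Agent.N63.MT (core lv ku ex sn mn mn_ne mn_map ex_facts lp height_congr)

/-- Laurent polynomials with a common denominator -/
theorem exists_poly {K : Type} [Field K] {m : ℕ} (𝓑 : Finset ((Fin m → ℤ) →₀ K)) :
    ∃ (E : Fin m →₀ ℕ) (q : ((Fin m → ℤ) →₀ K) → MvPolynomial (Fin m) K), ∀ B ∈ 𝓑,
      ∀ u : Fin m → K, (∀ i, u i ≠ 0) → MvPolynomial.eval u (q B) = mn u E * ev B u := by
  classical
  obtain ⟨D, hD⟩ : ∃ D : ℕ, ∀ B ∈ 𝓑, ∀ ν ∈ B.support, ∀ i, |ν i| ≤ D := by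
    refine ⟨∑ B ∈ 𝓑, ∑ ν ∈ B.support, ∑ i, (ν i).natAbs, ?_⟩
    intro B hB ν hν i
    have h1 := Finset.single_le_sum (f := fun i => (ν i).natAbs) (fun _ _ => Nat.zero_le _)
      (Finset.mem_univ i)
    have h2 := Finset.single_le_sum (f := fun ν : Fin m → ℤ => ∑ i, (ν i).natAbs)
      (fun _ _ => Nat.zero_le _) hν
    have h3 := Finset.single_le_sum (f := fun B : (Fin m → ℤ) →₀ K =>
      ∑ ν ∈ B.support, ∑ i, (ν i).natAbs) (fun _ _ => Nat.zero_le _) hB
    rw [Int.abs_eq_natAbs]
    exact_mod_cast (h1.trans h2).trans h3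
  refine ⟨Finsupp.equivFunOnFinite.symm fun _ => D, fun B => ∑ ν ∈ B.support,
    MvPolynomial.monomial (Finsupp.equivFunOnFinite.symm fun i => (ν i + D).toNat) (B ν), ?_⟩
  intro B hB u hu
  rw [map_sum]
  unfold ev Finsupp.sum
  rw [Finset.mul_sum]
  refine Finset.sum_congr rfl fun ν hν => ?_
  rw [MvPolynomial.eval_monomial]
  have h1 : ((Finsupp.equivFunOnFinite.symm fun i => (ν i + D).toNat : Fin m →₀ ℕ).prod
      fun n e => u n ^ e) = mn u (Finsupp.equivFunOnFinite.symm fun _ => D) * mono u ν := by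
    rw [Finsupp.prod_fintype _ _ (fun _ => pow_zero _)]
    unfold mono mn
    rw [← Finset.prod_mul_distrib]
    refine Finset.prod_congr rfl fun i _ => ?_
    show u i ^ (ν i + D).toNat = u i ^ D * u i ^ ν i
    have h2 : (((ν i + D).toNat : ℕ) : ℤ) = ν i + D := by
      rw [Int.toNat_of_nonneg]
      have := (abs_le.1 (hD B hB ν hν i)).1
      omega
    rw [← zpow_natCast (u i) (ν i + D).toNat, h2, zpow_add₀ (hu i), zpow_natCast]
    ring
  rw [h1]
  ring

variable {k K : Type} [Field k] [NumberField k] [Field K] [NumberField K] [Algebra k K]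
  {S : Finset (HeightOneSpectrum (𝓞 k))} {m : ℕ}

open Classical in
/-- the proximity function of the coordinate hyperplanes `x_0, ..., x_m` and of the hypersurface,
the latter for the places where one of `x_0, ..., x_m` dominates -/
noncomputable def prox (S : Finset (HeightOneSpectrum (𝓞 k)))
    (f : MvPolynomial (Option (Fin m)) k) (n : ℕ) (t : ℝ) (u : Fin m → k) (s : k) : ℝ :=
  ∑ v ∈ Sp S, wt v * (Real.log (nrm (av v) (pt u s)) +
    ∑ i, (Real.log (nrm (av v) (pt u s)) - Real.log (av v (u i))) +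
    if Near (av v) u t then
      n * Real.log (nrm (av v) (pt u s)) - Real.log (av v (val (toF f) u s)) else 0)

theorem abs_le_height (x : k) (hx : x ≠ 0) {v : Pl k} (hv : v ∈ Sp S) :
    |Real.log (av v x)| ≤ logHeight₁ x := by
  rw [abs_le]
  have h1 := log_le_height (S := S) x hx hv
  have h2 := neg_log_le_height (S := S) x hx hv
  constructor <;> linarith

theorem height_two (s : k) : logHeight (![1, s] : Fin 2 → k) = logHeight₁ s := by
  rw [logHeight₁_eq_logHeight]
  refine height_congr (fun h => one_ne_zero (congrFun h 0)) (fun h => one_ne_zero (congrFun h 1))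
    fun f => ?_
  have e1 : (⨆ i, f ((![s, 1] : Fin 2 → k) i)) = max (f s) 1 := nrm_pair f s
  rw [e1]
  have hb : BddAbove (Set.range fun i : Fin 2 => f ((![1, s] : Fin 2 → k) i)) :=
    (Set.finite_range _).bddAbove
  apply le_antisymm
  · refine ciSup_le fun i => ?_
    fin_cases i
    · show f 1 ≤ _
      rw [map_one]
      exact le_max_right _ _
    · exact le_max_left _ _
  · refine max_le (le_ciSup hb 1) ?_
    have := le_ciSup hb 0
    have e2 : f ((![1, s] : Fin 2 → k) 0) = 1 := map_one f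
    rwa [e2] at this

theorem sn_two (f : AbsoluteValue k ℝ) (s : k) : sn f (![1, s] : Fin 2 → k) = max 1 (f s) := by
  have hb : BddAbove (Set.range fun i : Fin 2 => f ((![1, s] : Fin 2 → k) i)) :=
    (Set.finite_range _).bddAbove
  unfold sn
  apply le_antisymm
  · refine ciSup_le fun i => ?_
    fin_cases i
    · show f 1 ≤ _
      rw [map_one]
      exact le_max_left _ _
    · exact le_max_right _ _
  · refine max_le ?_ (le_ciSup hb 1)
    have := le_ciSup hb 0
    have e2 : f ((![1, s] : Fin 2 → k) 0) = 1 := map_one f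
    rwa [e2] at this

theorem vj_big [IsGalois ℚ K] (hi : ∃ z : K, z ^ 2 = -1) (f : MvPolynomial (Option (Fin m)) k)
    {n : ℕ} (hn : 1 ≤ n) (hf : f.totalDegree ≤ n)
    (hlin : ∀ o, (lin f n o).natDegree = n ∧ (lin f n o).Separable)
    (hsplit : ∀ o, ((lin f n o).map (algebraMap k K)).Splits) {ε δ : ℝ} (hε : 0 < ε)
    (hδ : 0 < δ) :
    ∃ (Z : Finset (Fin 2 → MvPolynomial (Fin m) K)) (C1 C2 : ℝ), 0 ≤ C1 ∧ 0 ≤ C2 ∧
      (∀ P ∈ Z, P ≠ 0) ∧ ∀ (u : Fin m → k) (s : k), (∀ i, u i ≠ 0) → val (toF f) u s ≠ 0 →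
        (∀ P ∈ Z, lv P (ku K u) (ku K ![1, s]) ≠ 0) →
        logHeight (pt u s) ≤ C2 ∨ prox S f n (δ * logHeight (pt u s)) u s ≤
          (m + 2 + ε) * logHeight (pt u s) + C1 * ∑ i, ex (Sp S) (u i) + C2 := by
  classical
  choose fa hfa using fun v : Pl k => exists_good (K := K) v
  have hfe : ∀ (v : Pl k) (y : k), fa v (algebraMap k K y) = av v y := fun v y => (hfa v).ext y
  have hdegF : ∀ e ∈ (toF f).support, e.2 ≤ n := by
    intro e he
    obtain ⟨d, hd, rfl⟩ := exists_expo he
    have h2 : (expo d).2 = d none := rfl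
    have := deg_le hf hd
    omega
  have hloc := fun (o : Option (Fin m)) (v : Pl k) => local2 (fa v) (F := bc K (toF f))
    (κ := kap o) (μ := n • kap o) hn (by rw [bc_support]; exact hdegF) (by
      rw [gpol_bc, gpol_lin hf, Polynomial.natDegree_map_eq_of_injective (algebraMap k K).injective]
      exact (hlin o).1) (by
      rw [gpol_bc, gpol_lin hf]
      exact hsplit o) (by
      intro α h0 h1
      have h2 : (gpol (bc K (toF f)) (kap o) (n • kap o)).Separable := by
        rw [gpol_bc, gpol_lin hf]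
        exact (hlin o).2.map
      obtain ⟨a, b, hab⟩ := h2
      have h3 := congrArg (Polynomial.eval α) hab
      rw [Polynomial.eval_add, Polynomial.eval_mul, Polynomial.eval_mul, h0, h1, mul_zero,
        mul_zero, add_zero, Polynomial.eval_one] at h3
      exact zero_ne_one h3)
  choose ρ₀ hρpos hρ1 hL using hloc
  obtain ⟨CF, hCF0, hCF⟩ := height_val_le (toF f)
  obtain ⟨L, hLL⟩ := exists_nat_ge ((n + CF * (m + 2)) / δ)
  choose Cl hCl using fun o v => hL o v L
  choose Bs hBs using fun o : Option (Fin m) => exists_tg (bc K (toF f)) (kap o) (n • kap o) L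
  obtain ⟨𝓑, h𝓑⟩ : ∃ 𝓑 : Finset ((Fin m → ℤ) →₀ K), ∀ o, ∀ B' ∈ Bs o, B' ∈ 𝓑 :=
    ⟨Finset.univ.biUnion Bs, fun o B' hB' => Finset.mem_biUnion.2 ⟨o, Finset.mem_univ _, hB'⟩⟩
  have h0𝓑 : (0 : (Fin m → ℤ) →₀ K) ∈ 𝓑 := h𝓑 none 0 (hBs none).1
  obtain ⟨CL, hCL0, hCLle⟩ := bound2 (Sp S) Cl
  obtain ⟨Cρ, hCρ0, hCρle⟩ := bound2 (Sp S) fun o v => -Real.log (ρ₀ o v)
  obtain ⟨E, q, hq⟩ := exists_poly 𝓑
  -- the forms
  obtain ⟨a, ha1, ha2⟩ : ∃ a : (𝓑 ⊕ Unit) → Fin 2 → MvPolynomial (Fin m) K,
      (∀ b : 𝓑, a (Sum.inl b) = ![-q b.1, MvPolynomial.monomial E 1]) ∧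
      a (Sum.inr ()) = ![1, 0] :=
    ⟨Sum.elim (fun b => ![-q b.1, MvPolynomial.monomial E 1]) fun _ => ![1, 0],
      fun b => rfl, rfl⟩
  have hm1 : (0 : ℝ) < (m : ℝ) + 1 := by positivity
  obtain ⟨Z, C1, C2, hC1, hC2, hZ, hmain⟩ := core hi (Sp S) fa hfa (n := 2) two_pos a
    (ε / (m + 1)) (by positivity)
  obtain ⟨W, hW⟩ : ∃ W : ℝ, W = wS S := ⟨_, rfl⟩
  have hwS : 0 ≤ W := by rw [hW]; exact wS_nonneg S
  refine ⟨Z, C1 + 1, C2 + CL * W + 1 + Cρ / δ, by linarith, ?_, hZ, ?_⟩
  · have h1 := mul_nonneg hCL0 hwS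
    have h2 : 0 ≤ Cρ / δ := div_nonneg hCρ0 hδ.le
    linarith
  intro u s hu hval hoff
  obtain ⟨H, hH⟩ : ∃ H : ℝ, H = logHeight (pt u s) := ⟨_, rfl⟩
  rw [← hH]
  by_cases hHC : H ≤ C2 + CL * W + 1 + Cρ / δ
  · exact Or.inl hHC
  right
  push Not at hHC
  have hp1 : 0 ≤ Cρ / δ := div_nonneg hCρ0 hδ.le
  have hp2 : 0 ≤ CL * W := mul_nonneg hCL0 hwS
  have hH1 : 1 ≤ H := by linarith
  have hHρ : Cρ ≤ δ * H := by
    have : Cρ / δ ≤ H := by linarith
    rw [div_le_iff₀ hδ] at this
    linarith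
  have hδH : 0 < δ * H := mul_pos hδ (by linarith)
  have hhu : ∀ i, logHeight₁ (u i) ≤ H := fun i => by rw [hH]; exact height_u_le u s i
  have hhs : logHeight₁ s ≤ H := by rw [hH]; exact height_s_le u s
  have hhsu : hs u ≤ m * H := by
    unfold hs
    refine (Finset.sum_le_sum fun i _ => hhu i).trans ?_
    rw [Finset.sum_const, Finset.card_univ, Fintype.card_fin, nsmul_eq_mul]
  have huK0 : ∀ i, algebraMap k K (u i) ≠ 0 := fun i => (_root_.map_ne_zero _).2 (hu i)
  -- the charts
  have hchart : ∀ v : Pl k, ∃ o : Option (Fin m), Near (av v) u (δ * H) →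
      0 ≤ dt (dir u v) (kap o) ∧
      (∀ i, dir u v i ≤ dt (dir u v) (kap o)) ∧
      ∀ e ∈ (toF f).support, e.1 + e.2 • kap o ≠ n • kap o →
        dt (dir u v) (e.1 + e.2 • kap o - n • kap o) ≤ -(δ * H) := by
    intro v
    by_cases hv : Near (av v) u (δ * H)
    · obtain ⟨o, ho⟩ := chart_near hf (av v) hu hδH hv (dir u v) fun i => rfl
      exact ⟨o, fun _ => ho⟩
    · exact ⟨none, fun h => absurd h hv⟩
  choose o ho using hchart
  have hkap : ∀ v ∈ Sp S, |dt (dir u v) (kap (o v))| ≤ H := by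
    intro v hv
    rcases o v with _ | i
    · show |dt (dir u v) 0| ≤ H
      rw [dt_zero, abs_zero]
      linarith
    · rw [dt_kap]
      exact (abs_le_height (u i) (hu i) hv).trans (hhu i)
  -- the local inequalities
  have hlocal : ∀ v : Pl k, ∃ b : 𝓑, (¬ Near (av v) u (δ * H) → b.1 = 0) ∧ (v ∈ Sp S →
      Near (av v) u (δ * H) → algebraMap k K s - ev b.1 (fun i => algebraMap k K (u i)) ≠ 0 →
      Real.log (fa v (algebraMap k K s - ev b.1 fun i => algebraMap k K (u i))) +
        ((n : ℝ) - 1) * Real.log (max 1 (av v (mono u (-kap (o v)) * s))) ≤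
        CL + dt (dir u v) (kap (o v) - n • kap (o v)) + Real.log (av v (val (toF f) u s))) := by
    intro v
    by_cases hvn : v ∈ Sp S ∧ Near (av v) u (δ * H)
    swap
    · exact ⟨⟨0, h0𝓑⟩, fun _ => rfl, fun h h' => absurd ⟨h, h'⟩ hvn⟩
    obtain ⟨hv, hnear⟩ := hvn
    obtain ⟨B', hB', h1⟩ := hCl (o v) v (Bs (o v)) (hBs (o v)) (fun i => algebraMap k K (u i))
      (algebraMap k K s) (Real.exp (-(δ * H))) huK0 (Real.exp_pos _).le (by
        have h2 := hCρle v hv (o v)
        have h3 : -(δ * H) ≤ Real.log (ρ₀ (o v) v) := by linarith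
        calc Real.exp (-(δ * H)) ≤ Real.exp (Real.log (ρ₀ (o v) v)) := Real.exp_le_exp.2 h3
          _ = ρ₀ (o v) v := Real.exp_log (hρpos _ _)) (by
        intro e he hoffe
        rw [bc_support] at he
        rw [← map_mono (algebraMap k K), hfe]
        have h2 := (ho v hnear).2.2 e he hoffe
        have h3 : 0 < av v (mono u (e.1 + e.2 • kap (o v) - n • kap (o v))) :=
          (av v).pos (mono_ne hu _)
        rw [← Real.log_le_iff_le_exp h3, log_av_mono hu]
        exact h2) (by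
        rw [val_bc]
        exact (_root_.map_ne_zero _).2 hval) (by
        rw [val_bc, ← map_mono (algebraMap k K), ← map_mul, hfe, ← Real.exp_nat_mul]
        have h3 : 0 < av v (mono u (-(n • kap (o v))) * val (toF f) u s) :=
          (av v).pos (mul_ne_zero (mono_ne hu _) hval)
        rw [← Real.le_log_iff_exp_le h3, map_mul,
          Real.log_mul ((av v).ne_zero (mono_ne hu _)) ((av v).ne_zero hval), log_av_mono hu]
        have h4 := neg_log_le_height (S := S) (val (toF f) u s) hval hv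
        have h5 := hCF u s
        have h6 : dt (dir u v) (-(n • kap (o v))) = -(n * dt (dir u v) (kap (o v))) := by
          rw [dt_neg, dt_nsmul]
        have h7 : n * dt (dir u v) (kap (o v)) ≤ n * H :=
          mul_le_mul_of_nonneg_left ((le_abs_self _).trans (hkap v hv)) (Nat.cast_nonneg _)
        have h10 : CF * (hs u + logHeight₁ s + 1) ≤ CF * (m + 2) * H := by
          rw [mul_assoc]
          refine mul_le_mul_of_nonneg_left ?_ hCF0
          linarith
        have h11 : (n + CF * (m + 2)) * H ≤ (L : ℝ) * (δ * H) := by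
          rw [div_le_iff₀ hδ] at hLL
          calc (n + CF * (m + 2)) * H ≤ (L * δ) * H :=
                mul_le_mul_of_nonneg_right hLL (by linarith)
            _ = _ := by ring
        rw [h6]
        push_cast
        linarith)
    refine ⟨⟨B', h𝓑 (o v) B' hB'⟩, fun h => absurd hnear h, fun _ _ hne => ?_⟩
    have h2 := h1 hne
    have h3 : fa v (mono (fun i => algebraMap k K (u i)) (-kap (o v)) * algebraMap k K s) =
        av v (mono u (-kap (o v)) * s) := by
      rw [← map_mono (algebraMap k K), ← map_mul, hfe]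
    rw [val_bc, hfe, h3, ← map_mono (algebraMap k K), hfe, log_av_mono hu] at h2
    have h4 := hCLle v hv (o v)
    linarith
  choose b hb using hlocal
  -- the main inequality
  have huK : ku K u = fun i => algebraMap k K (u i) := rfl
  have hlv1 : ∀ b : 𝓑, lv (a (Sum.inl b)) (ku K u) (ku K ![1, s]) =
      mn (ku K u) E * (algebraMap k K s - ev b.1 fun i => algebraMap k K (u i)) := by
    intro b
    unfold lv
    rw [Fin.sum_univ_two, ha1]
    show MvPolynomial.eval (ku K u) (-q b.1) * algebraMap k K 1 +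
      MvPolynomial.eval (ku K u) (MvPolynomial.monomial E 1) * algebraMap k K s = _
    rw [map_neg, hq b.1 b.2 (ku K u) huK0, map_one, MvPolynomial.eval_monomial]
    have h1 : (E.prod fun n e => ku K u n ^ e) = mn (ku K u) E := by
      rw [Finsupp.prod_fintype _ _ (fun _ => pow_zero _)]
      rfl
    rw [h1, huK]
    ring
  have hlv2 : lv (a (Sum.inr ())) (ku K u) (ku K ![1, s]) = 1 := by
    unfold lv
    rw [Fin.sum_univ_two, ha2]
    show MvPolynomial.eval (ku K u) 1 * algebraMap k K 1 +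
      MvPolynomial.eval (ku K u) 0 * algebraMap k K s = 1
    rw [map_one, map_one, map_zero]
    ring
  obtain ⟨hne, -, hineq⟩ := hmain u ![1, s] hu hoff
  have hmon : (MvPolynomial.monomial E (1 : K) : MvPolynomial (Fin m) K) ≠ 0 := by
    rw [Ne, MvPolynomial.monomial_eq_zero]
    exact one_ne_zero
  have hsne : ∀ b : 𝓑, algebraMap k K s - ev b.1 (fun i => algebraMap k K (u i)) ≠ 0 := by
    intro b h0
    refine hne (Sum.inl b) ?_ ?_
    · intro h1
      rw [ha1] at h1
      exact hmon (congrFun h1 1)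
    · rw [hlv1, h0, mul_zero]
  have hdet : ∀ b : 𝓑, (Matrix.of fun j : Fin 2 =>
      a ((![Sum.inl b, Sum.inr ()] : Fin 2 → 𝓑 ⊕ Unit) j)).det = -MvPolynomial.monomial E 1 := by
    intro b
    rw [Matrix.det_fin_two]
    show a (Sum.inl b) 0 * a (Sum.inr ()) 1 - a (Sum.inl b) 1 * a (Sum.inr ()) 0 = _
    rw [ha1, ha2]
    show -q b.1 * 0 - MvPolynomial.monomial E 1 * 1 = _
    ring
  have hfinal := hineq (fun v => ![Sum.inl (b v), Sum.inr ()]) (fun _ => E) (by
    intro v
    rw [hdet (b v), MvPolynomial.mem_support_iff, MvPolynomial.coeff_neg,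
      MvPolynomial.coeff_monomial, if_pos rfl]
    exact neg_ne_zero.2 one_ne_zero)
  set T : Pl k → ℝ := fun v =>
    Real.log (fa v (algebraMap k K s - ev (b v).1 fun i => algebraMap k K (u i))) with hT
  set lm : Pl k → ℝ := fun v => Real.log (max 1 (av v s)) with hlm
  have hterm : ∀ v : Pl k, (∑ j, (Real.log (sn (av v) ![1, s]) -
      Real.log (fa v (lv (a ((![Sum.inl (b v), Sum.inr ()] : Fin 2 → 𝓑 ⊕ Unit) j)) (ku K u)
        (ku K ![1, s])))) + Real.log (av v (mn u E))) = 2 * lm v - T v := by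
    intro v
    rw [Fin.sum_univ_two, sn_two]
    show (Real.log (max 1 (av v s)) - Real.log (fa v (lv (a (Sum.inl (b v))) (ku K u)
        (ku K ![1, s]))) + (Real.log (max 1 (av v s)) - Real.log (fa v (lv (a (Sum.inr ()))
        (ku K u) (ku K ![1, s])))) + _) = _
    rw [hlv1, hlv2, map_one, Real.log_one, map_mul]
    have h1 : fa v (mn (ku K u) E) = av v (mn u E) := by
      rw [huK, mn_map (algebraMap k K), hfe]
    rw [h1, Real.log_mul ((av v).ne_zero (mn_ne hu _)) ((fa v).ne_zero (hsne _))]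
    simp only [hT, hlm]
    ring
  simp only [hterm] at hfinal
  rw [height_two] at hfinal
  -- the pieces
  obtain ⟨A, hA⟩ : ∃ A : Pl k → ℝ, ∀ v, A v = Real.log (nrm (av v) (pt u s)) :=
    ⟨fun v => Real.log (nrm (av v) (pt u s)), fun _ => rfl⟩
  have hAv : ∀ v ∈ Sp S, (if Near (av v) u (δ * H) then
      n * A v - Real.log (av v (val (toF f) u s)) else 0) ≤ CL + A v - T v := by
    intro v hv
    by_cases hnear : Near (av v) u (δ * H)
    swap
    · rw [if_neg hnear]
      have h1 : (b v).1 = 0 := (hb v).1 hnear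
      have h2 : fa v (algebraMap k K s - ev (b v).1 fun i => algebraMap k K (u i)) = av v s := by
        rw [h1, ev_zero, sub_zero, hfe]
      have hs0 : s ≠ 0 := by
        intro h0
        have h3 := hsne (b v)
        rw [h1, ev_zero, sub_zero, h0, map_zero] at h3
        exact h3 rfl
      have h3 : T v = Real.log (av v s) := by
        simp only [hT]
        rw [h2]
      have h4 : Real.log (av v s) ≤ A v := by
        rw [hA]
        refine Real.log_le_log ((av v).pos hs0) ?_
        have := le_nrm (av v) (pt u s) (Fin.last m).succ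
        rwa [pt_s] at this
      rw [h3]
      linarith
    rw [if_pos hnear]
    have h1 := (hb v).2 hv hnear (hsne (b v))
    obtain ⟨h2, h3, -⟩ := ho v hnear
    have h4 : A v = dt (dir u v) (kap (o v)) +
        Real.log (max 1 (av v (mono u (-kap (o v)) * s))) := by
      rw [hA, ← log_av_mono hu]
      refine nrm_chart (av v) hu s (o v) ?_ fun i => ?_
      · rw [← log_av_mono hu] at h2
        exact (Real.log_nonneg_iff ((av v).pos (mono_ne hu _))).1 h2
      · have h5 := h3 i
        rw [← log_av_mono hu] at h5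
        exact (Real.log_le_log_iff ((av v).pos (hu i)) ((av v).pos (mono_ne hu _))).1 h5
    rw [dt_sub, dt_nsmul] at h1
    have h5 : ((n : ℝ) - 1) * A v = ((n : ℝ) - 1) * dt (dir u v) (kap (o v)) +
        ((n : ℝ) - 1) * Real.log (max 1 (av v (mono u (-kap (o v)) * s))) := by
      rw [h4]
      ring
    simp only [hT]
    linarith
  have hprox : prox S f n (δ * H) u s ≤ CL * W + (m + 2) * ∑ v ∈ Sp S, wt v * A v -
      ∑ v ∈ Sp S, wt v * T v - ∑ i, ∑ v ∈ Sp S, wt v * Real.log (av v (u i)) := by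
    have h1 : prox S f n (δ * H) u s ≤ ∑ v ∈ Sp S, (wt v * CL + (m + 2) * (wt v * A v) - wt v * T v -
        ∑ i, wt v * Real.log (av v (u i))) := by
      unfold prox
      refine Finset.sum_le_sum fun v hv => ?_
      rw [← Finset.mul_sum, ← hA]
      have h2 := hAv v hv
      have h3 : ∑ i : Fin m, (A v - Real.log (av v (u i))) =
          m * A v - ∑ i, Real.log (av v (u i)) := by
        rw [Finset.sum_sub_distrib, Finset.sum_const, Finset.card_univ, Fintype.card_fin,
          nsmul_eq_mul]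
      rw [h3]
      have h4 : wt v * CL + (m + 2) * (wt v * A v) - wt v * T v -
          wt v * ∑ i, Real.log (av v (u i)) =
          wt v * (CL + (m + 2) * A v - T v - ∑ i, Real.log (av v (u i))) := by ring
      rw [h4]
      refine mul_le_mul_of_nonneg_left ?_ (wt_nonneg v)
      linarith
    refine h1.trans (le_of_eq ?_)
    rw [Finset.sum_sub_distrib, Finset.sum_sub_distrib, Finset.sum_add_distrib, ← Finset.mul_sum,
      ← Finset.sum_mul, hW, Finset.sum_comm]
    unfold wS
    ring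
  have hex : ∀ i, -∑ v ∈ Sp S, wt v * Real.log (av v (u i)) ≤ ex (Sp S) (u i) := by
    intro i
    obtain ⟨h1, h2, h3, h4⟩ := ex_facts (Sp S) (hu i)
    linarith
  have hex2 : -∑ i, ∑ v ∈ Sp S, wt v * Real.log (av v (u i)) ≤ ∑ i, ex (Sp S) (u i) := by
    rw [← Finset.sum_neg_distrib]
    exact Finset.sum_le_sum fun i _ => hex i
  have hTs : -∑ v ∈ Sp S, wt v * T v = ∑ v ∈ Sp S, wt v * (2 * lm v - T v) -
      2 * ∑ v ∈ Sp S, wt v * lm v := by
    rw [Finset.mul_sum, ← Finset.sum_neg_distrib, ← Finset.sum_sub_distrib]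
    exact Finset.sum_congr rfl fun v _ => by ring
  have hout := out_s_le (S := S) u s
  have hout2 := out_pt_nonneg (S := S) u s
  have e1 : ∑ v ∈ Sp S, wt v * Real.log (max 1 (av v s)) = ∑ v ∈ Sp S, wt v * lm v := rfl
  have e2 : ∑ v ∈ Sp S, wt v * Real.log (nrm (av v) (pt u s)) = ∑ v ∈ Sp S, wt v * A v :=
    Finset.sum_congr rfl fun v _ => by rw [hA]
  rw [e1, e2, ← hH] at hout
  rw [e2, ← hH] at hout2
  have hsumu : ∑ i, logHeight₁ (u i) ≤ m * H := hhsu
  have hε1 : ε / (m + 1) * logHeight₁ s + ε / (m + 1) * ∑ i, logHeight₁ (u i) ≤ ε * H := by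
    have h1 : ε / (m + 1) * (logHeight₁ s + ∑ i, logHeight₁ (u i)) ≤ ε / (m + 1) * ((m + 1) * H) :=
      mul_le_mul_of_nonneg_left (by linarith) (by positivity)
    have h2 : ε / (m + 1) * ((m + 1) * H) = ε * H := by
      field_simp
    linarith
  have hm0 : (0 : ℝ) ≤ m := Nat.cast_nonneg m
  have h9 : 0 ≤ m * (H - ∑ v ∈ Sp S, wt v * A v) := mul_nonneg hm0 hout2
  push_cast at hfinal
  nlinarith

end Pool.Agent.Run7.h489.VJ
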