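import Mathlib
import Pool.Agent.Run7.h489.VJ.Main

set_option autoImplicit false
set_option linter.unusedSectionVars false

/-!
Vojta's inequality over the base field.
-/

namespace Pool.Agent.Run7.h489.VJ

open Height NumberField IsDedekindDomain
open Pool.Agent.W180.OP (Pl av wt fv nrm wt_nonneg le_nrm exists_nrm nrm_pos)
open Pool.Agent.R404.TC (Sp)
open Pool.Agent.Run7.h489.TM
open Pool.Agent.N63.MT (lv ku ex ex_facts descend)

variable {k : Type} [Field k] [NumberField k] {S : Finset (HeightOneSpectrum (𝓞 k))} {m : ℕ}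

theorem finite_pts (C : ℝ) : {p : (Fin m → k) × k | logHeight (pt p.1 p.2) ≤ C}.Finite := by
  have h1 : {x : k | logHeight₁ x ≤ C}.Finite :=
    finite_setOfPred_logHeight₁_le k C
  have h2 : (Set.pi Set.univ fun _ : Fin m => {x : k | logHeight₁ x ≤ C}).Finite :=
    Set.Finite.pi fun _ => h1
  refine (h2.prod h1).subset ?_
  rintro ⟨u, s⟩ h
  refine ⟨fun i _ => (height_u_le u s i).trans h, (height_s_le u s).trans h⟩

theorem vj_base (f : MvPolynomial (Option (Fin m)) k)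
    {n : ℕ} (hn : 1 ≤ n) (hf : f.totalDegree ≤ n)
    (hlin : ∀ o, (lin f n o).natDegree = n ∧ (lin f n o).Separable) {ε δ : ℝ} (hε : 0 < ε)
    (hδ : 0 < δ) :
    ∃ (Z : Finset (Fin 2 → MvPolynomial (Fin m) k)) (C1 C2 : ℝ), 0 ≤ C1 ∧ 0 ≤ C2 ∧
      (∀ P ∈ Z, P ≠ 0) ∧ ∀ (u : Fin m → k) (s : k), (∀ i, u i ≠ 0) → val (toF f) u s ≠ 0 →
        (∀ P ∈ Z, lv P u ![1, s] ≠ 0) →
        prox S f n (δ * logHeight (pt u s)) u s ≤
          (m + 2 + ε) * logHeight (pt u s) + C1 * ∑ i, ex (Sp S) (u i) + C2 := by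
  classical
  obtain ⟨P, hP⟩ : ∃ P : Polynomial k, P = ∏ o, lin f n o := ⟨_, rfl⟩
  have hP0 : P ≠ 0 := by
    rw [hP, Finset.prod_ne_zero_iff]
    intro o _ h0
    have h1 := (hlin o).1
    rw [h0, Polynomial.natDegree_zero] at h1
    omega
  obtain ⟨M, hM1, hM2, hM3, hM4, hi, h2⟩ := exists_split P
  obtain ⟨Z, C1, C2, hC1, hC2, hZ, hmain⟩ := vj_big (K := M) (S := S) hi f hn hf hlin (by
    intro o
    refine h2.of_dvd ?_ (Polynomial.map_dvd _ ?_)
    · rw [Polynomial.map_ne_zero_iff (algebraMap k M).injective]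
      exact hP0
    · rw [hP]
      exact Finset.dvd_prod_of_mem _ (Finset.mem_univ o)) hε hδ
  have hdes := fun P : {P // P ∈ Z} => descend (k := k) P.1 (hZ P.1 P.2)
  choose Pd hPd1 hPd2 using hdes
  obtain ⟨C3, hC3⟩ : ∃ C3 : ℝ, ∀ p ∈ {p : (Fin m → k) × k | logHeight (pt p.1 p.2) ≤ C2},
      prox S f n (δ * logHeight (pt p.1 p.2)) p.1 p.2 ≤ C3 := by
    obtain ⟨C3, h⟩ := ((finite_pts C2).image fun p : (Fin m → k) × k =>
      prox S f n (δ * logHeight (pt p.1 p.2)) p.1 p.2).bddAbove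
    exact ⟨C3, fun p hp => h (Set.mem_image_of_mem _ hp)⟩
  refine ⟨Finset.univ.image Pd, C1, C2 + |C3|, hC1, by positivity, ?_, ?_⟩
  · intro P hP
    obtain ⟨P', -, rfl⟩ := Finset.mem_image.1 hP
    exact hPd1 P'
  · intro u s hu hval hZu
    have h1 := hmain u s hu hval fun P hP => hPd2 ⟨P, hP⟩ u ![1, s]
      (hZu _ (Finset.mem_image_of_mem _ (Finset.mem_univ _)))
    have hex : 0 ≤ ∑ i, ex (Sp S) (u i) := Finset.sum_nonneg fun i _ => (ex_facts _ (hu i)).2.2.1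
    have hH : 0 ≤ logHeight (pt u s) := logHeight_nonneg _
    have h3 : 0 ≤ (m + 2 + ε) * logHeight (pt u s) := by positivity
    have h4 : 0 ≤ C1 * ∑ i, ex (Sp S) (u i) := mul_nonneg hC1 hex
    rcases h1 with h1 | h1
    · have h5 := hC3 (u, s) h1
      have h6 := le_abs_self C3
      have h7 : prox S f n (δ * logHeight (pt u s)) u s ≤ C3 := h5
      linarith
    · have h6 := abs_nonneg C3
      linarith

end Pool.Agent.Run7.h489.VJ
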