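import Mathlib
import Pool.Agent.Run7.h489.VJ.Base
import Pool.Agent.Run7.h489.TM.Cnt
import Pool.Agent.N63.MT.Full

set_option autoImplicit false
set_option linter.unusedSectionVars false

/-!
Vojta's inequality for almost all tuples of units.
-/

namespace Pool.Agent.Run7.h489.VJ

open Height NumberField IsDedekindDomain
open Pool.Agent.W180.OP (Pl av wt fv nrm wt_nonneg le_nrm exists_nrm nrm_pos)
open Pool.Agent.R404.TC (Sp)
open Pool.Agent.Run7.h489.LV (IsU IsI mem_Sp_inl mem_Sp_inr)
open Pool.Agent.Run7.h489.TM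
open Pool.Agent.N63.MT (lv ku ex ex_facts descend)

variable {k : Type} [Field k] [NumberField k] {S : Finset (HeightOneSpectrum (𝓞 k))} {m : ℕ}

theorem height_pt_le (u : Fin m → k) (s : k) :
    logHeight (pt u s) ≤ ∑ i, logHeight₁ (u i) + logHeight₁ s := by
  classical
  obtain ⟨x, hxs, hxu⟩ : ∃ x : Option (Fin m) → Fin 2 → k, x none = ![s, 1] ∧
      ∀ i, x (some i) = ![u i, 1] := ⟨fun o => ![Option.elim o s u, 1], rfl, fun i => rfl⟩
  have hx1 : ∀ o, x o 1 = 1 := by
    rintro (_ | i)
    · rw [hxs]; rfl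
    · rw [hxu]; rfl
  have hx : ∀ o, x o ≠ 0 := fun o h => one_ne_zero ((hx1 o).symm.trans (congrFun h 1))
  have h1 := logHeight_fun_prod_eq hx
  rw [Fintype.sum_option, hxs, ← logHeight₁_eq_logHeight] at h1
  simp only [hxu, ← logHeight₁_eq_logHeight] at h1
  have hup : ∀ (o : Option (Fin m)), ∏ a, x a (if a = o then 0 else 1) = x o 0 := by
    intro o
    rw [Finset.prod_eq_single o]
    · rw [if_pos rfl]
    · intro a _ ha
      rw [if_neg ha, hx1]
    · intro h
      exact absurd (Finset.mem_univ _) h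
  have h2 : pt u s = (fun I : Option (Fin m) → Fin 2 => ∏ a, x a (I a)) ∘
      (Fin.cons (fun _ => 1) (Fin.snoc (fun i a => if a = some i then 0 else 1)
        (fun a => if a = none then 0 else 1)) : Fin (m + 2) → Option (Fin m) → Fin 2) := by
    funext j
    refine Fin.cases ?_ (fun j => ?_) j
    · show (1 : k) = ∏ a, x a 1
      simp only [hx1, Finset.prod_const_one]
    · refine Fin.lastCases ?_ (fun i => ?_) j
      · rw [pt_s, Function.comp_apply, Fin.cons_succ, Fin.snoc_last]
        show s = ∏ a, x a (if a = none then 0 else 1)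
        rw [hup, hxs]
        rfl
      · rw [pt_u, Function.comp_apply, Fin.cons_succ, Fin.snoc_castSucc]
        show u i = ∏ a, x a (if a = some i then 0 else 1)
        rw [hup, hxu]
        rfl
  rw [h2]
  refine (logHeight_comp_le _ _).trans ?_
  rw [h1]
  linarith

/-- the full proximity function -/
noncomputable def fprox (S : Finset (HeightOneSpectrum (𝓞 k)))
    (f : MvPolynomial (Option (Fin m)) k) (n : ℕ) (u : Fin m → k) (s : k) : ℝ :=
  ∑ v ∈ Sp S, wt v * (Real.log (nrm (av v) (pt u s)) +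
    ∑ i, (Real.log (nrm (av v) (pt u s)) - Real.log (av v (u i))) +
    (n * Real.log (nrm (av v) (pt u s)) - Real.log (av v (val (toF f) u s))))

theorem near_of_walls (v : AbsoluteValue k ℝ) {u : Fin m → k} (hu : ∀ i, u i ≠ 0) {c : ℝ}
    (h1 : ∀ i, c ≤ |Real.log (v (u i))|)
    (h2 : ∀ i j, i ≠ j → c ≤ |Real.log (v (u i)) - Real.log (v (u j))|) : Near v u c := by
  have hexp : ∀ x y : k, x ≠ 0 → y ≠ 0 → Real.log (v x) ≤ -c + Real.log (v y) →
      v x ≤ Real.exp (-c) * v y := by
    intro x y hx hy h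
    have h3 := Real.exp_le_exp.2 h
    rwa [Real.exp_log (v.pos hx), Real.exp_add, Real.exp_log (v.pos hy)] at h3
  by_cases hneg : ∀ i, Real.log (v (u i)) < 0
  · refine ⟨none, fun o ho => ?_⟩
    rcases o with _ | i
    · exact absurd rfl ho
    · refine hexp (u i) 1 (hu i) one_ne_zero ?_
      have h3 := h1 i
      rw [abs_of_neg (hneg i)] at h3
      rw [map_one, Real.log_one]
      linarith
  · push Not at hneg
    obtain ⟨i1, hi1⟩ := hneg
    have hne : Nonempty (Fin m) := ⟨i1⟩
    obtain ⟨i, hi⟩ := Finite.exists_max fun i => Real.log (v (u i))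
    refine ⟨some i, fun o ho => ?_⟩
    rcases o with _ | j
    · refine hexp 1 (u i) one_ne_zero (hu i) ?_
      have h3 := h1 i
      rw [abs_of_nonneg (hi1.trans (hi i1))] at h3
      rw [map_one, Real.log_one]
      linarith
    · refine hexp (u j) (u i) (hu j) (hu i) ?_
      have hj : j ≠ i := fun h => ho (by rw [h])
      have h3 := h2 j i hj
      rw [abs_of_nonpos (sub_nonpos.2 (hi j))] at h3
      linarith

open Classical in
theorem vj_most (S : Finset (HeightOneSpectrum (𝓞 k))) (hS : 2 ≤ (Sp S).card)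
    (f : MvPolynomial (Option (Fin m)) k)
    {n : ℕ} (hn : 1 ≤ n) (hf : f.totalDegree ≤ n)
    (hlin : ∀ o, (lin f n o).natDegree = n ∧ (lin f n o).Separable) {ε η B : ℝ} (hε : 0 < ε)
    (hη : 0 < η) (hB : 0 ≤ B) :
    ∃ (Z : Finset (Fin 2 → MvPolynomial (Fin m) k)) (C T₀ : ℝ), (∀ P ∈ Z, P ≠ 0) ∧
      ∀ T : ℝ, T₀ ≤ T →
        (((Bx m S T).filter fun u => ∃ s : k, val (toF f) u s ≠ 0 ∧ logHeight₁ s ≤ B * T ∧
          (∀ P ∈ Z, lv P u ![1, s] ≠ 0) ∧
          (m + 2 + ε) * logHeight (pt u s) + C < fprox S f n u s).card : ℝ) ≤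
            η * (UF S T).card ^ m := by
  obtain ⟨δ, T₁, hδ, hbad⟩ := bad S hS (N := wl m) (fun ν hν => wl_ne hν) hη
  have hBm : 0 < B + m + 1 := by positivity
  obtain ⟨Z, C1, C2, hC1, hC2, hZ, hmain⟩ := vj_base (S := S) f hn hf hlin hε
    (δ := δ / (B + m + 1)) (by positivity)
  refine ⟨Z, C2, max T₁ 0, hZ, fun T hT => le_trans ?_ (hbad T ((le_max_left _ _).trans hT))⟩
  have hT0 : 0 ≤ T := (le_max_right _ _).trans hT
  rw [Nat.cast_le]
  refine Finset.card_le_card fun u hu => ?_
  obtain ⟨huB, s, hval, hsB, hoff, hlt⟩ := Finset.mem_filter.1 hu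
  have hU := mem_Bx.1 huB
  have hu0 : ∀ i, u i ≠ 0 := fun i => (hU i).1.1
  refine Finset.mem_filter.2 ⟨huB, ?_⟩
  by_contra hcon
  push Not at hcon
  have h1 := hmain u s hu0 hval hoff
  have hht : logHeight (pt u s) ≤ (B + m + 1) * T := by
    have h2 := height_pt_le u s
    have h3 : ∑ i, logHeight₁ (u i) ≤ m * T := by
      refine (Finset.sum_le_sum fun i _ => (hU i).2).trans ?_
      rw [Finset.sum_const, Finset.card_univ, Fintype.card_fin, nsmul_eq_mul]
    nlinarith
  have hc : δ / (B + m + 1) * logHeight (pt u s) ≤ δ * T := by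
    rw [div_mul_eq_mul_div, div_le_iff₀ hBm]
    calc δ * logHeight (pt u s) ≤ δ * ((B + m + 1) * T) :=
          mul_le_mul_of_nonneg_left hht hδ.le
      _ = δ * T * (B + m + 1) := by ring
  have hnear : ∀ v ∈ Sp S, Near (av v) u (δ / (B + m + 1) * logHeight (pt u s)) := by
    intro v hv
    refine near_of_walls (av v) hu0 (fun i => ?_) fun i j hij => ?_
    · have h2 := hcon v hv (Pi.single i 1) (Finset.mem_union_left _
        (Finset.mem_image_of_mem _ (Finset.mem_univ i)))
      rw [dt_single] at h2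
      exact hc.trans h2
    · have h2 := hcon v hv (Pi.single i 1 - Pi.single j 1) (Finset.mem_union_right _
        (Finset.mem_image.2 ⟨(i, j), Finset.mem_filter.2 ⟨Finset.mem_univ _, hij⟩, rfl⟩))
      rw [dt_sub, dt_single, dt_single] at h2
      exact hc.trans h2
  have hpe : prox S f n (δ / (B + m + 1) * logHeight (pt u s)) u s = fprox S f n u s := by
    unfold prox fprox
    refine Finset.sum_congr rfl fun v hv => ?_
    rw [if_pos (hnear v hv)]
  have hex : ∀ i, ex (Sp S) (u i) = 0 := fun i =>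
    Pool.Agent.N63.MT.ex_unit (Sp S) (hu0 i) fun v hv => by
      rcases v with v | v
      · exact absurd (mem_Sp_inl v) hv
      · exact (hU i).1.2 v fun h => hv (mem_Sp_inr.2 h)
  rw [hpe] at h1
  simp only [hex, Finset.sum_const_zero, mul_zero, add_zero] at h1
  linarith

end Pool.Agent.Run7.h489.VJ
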